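import Pool.Agent.H.MP_148663_lc.A

namespace Pool.Agent.Results.MP_148663_lc.Hard

open Pool.Agent.Lib.CX Pool.Agent.H.MP_148663_lc

theorem result : (NPHard fun a : {a : Sys // a.ok} => ¬Unimod a.1.P) ∧
    ((InP fun a : {a : Sys // a.ok} => Unimod a.1.P) → ∀ A : List Bool → Prop, InNP A → InP A) :=
  ⟨hard, fun ⟨f, hf, e⟩ A hA => InP.red ⟨fun a => !f a, hf.not, fun a => by simp [e]⟩ (hard A hA)⟩

end Pool.Agent.Results.MP_148663_lc.Hard
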